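import Mathlib

set_option autoImplicit false

/-! MP_4bcb19_an, Q1 and Q2 (both disproved). The graph of a real polynomial of degree `n ≥ 5`
can have far fewer than `n - 1` points of extreme curvature, and even far fewer than `n - 1`
curvature-critical points: for `x^n` there are at most three. The example `x^5 + x^3` is stable:
there `κ'` has exactly two real zeros, both simple, so the count stays `2 < 4` also if zeros are
counted with multiplicity. -/

namespace Pool.Agent.Results.MP_4bcb19_an.FewCurvatureExtrema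

open Polynomial

/-- The signed curvature of the graph of `p` at the point with abscissa `x`. -/
noncomputable def curvature (p : ℝ[X]) (x : ℝ) : ℝ :=
  (derivative (derivative p)).eval x / (1 + ((derivative p).eval x) ^ 2) ^ (3 / 2 : ℝ)

/-- The numerator `N = p'''(1 + p'^2) - 3 p' p''^2` of the derivative of the curvature. -/
noncomputable def numer (p : ℝ[X]) : ℝ[X] :=
  derivative (derivative (derivative p)) * (1 + derivative p ^ 2) -
    3 * derivative p * derivative (derivative p) ^ 2

/-- Abscissas of the points of extreme curvature. -/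
def extremePoints (p : ℝ[X]) : Set ℝ := {x | IsLocalExtr (curvature p) x}

/-- Abscissas of the curvature-critical points. -/
def criticalPoints (p : ℝ[X]) : Set ℝ := {x | deriv (curvature p) x = 0}

lemma hasDerivAt_curvature (p : ℝ[X]) (x : ℝ) :
    HasDerivAt (curvature p)
      ((numer p).eval x / (1 + ((derivative p).eval x) ^ 2) ^ (5 / 2 : ℝ)) x := by
  set u : ℝ := 1 + ((derivative p).eval x) ^ 2 with hu
  have hu0 : 0 < u := by positivity
  have h1 : HasDerivAt (fun y => 1 + ((derivative p).eval y) ^ 2)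
      (2 * (derivative p).eval x * (derivative (derivative p)).eval x) x := by
    have := (((derivative p).hasDerivAt x).pow 2).const_add 1
    simpa using this
  have h2 : HasDerivAt (fun y => (1 + ((derivative p).eval y) ^ 2) ^ (3 / 2 : ℝ))
      (2 * (derivative p).eval x * (derivative (derivative p)).eval x * (3 / 2) *
        u ^ ((3 / 2 : ℝ) - 1)) x :=
    h1.rpow_const (Or.inl hu0.ne')
  have h3 := ((derivative (derivative p)).hasDerivAt x).div h2 (Real.rpow_pos_of_pos hu0 _).ne'
  have h4 : HasDerivAt (curvature p) _ x := h3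
  refine h4.congr_deriv ?_
  rw [← hu]
  have e1 : u ^ (3 / 2 : ℝ) = u * u ^ (1 / 2 : ℝ) := by
    rw [← Real.rpow_one_add' hu0.le (by norm_num)]
    norm_num
  have e2 : u ^ (5 / 2 : ℝ) = u ^ 2 * u ^ (1 / 2 : ℝ) := by
    rw [← Real.rpow_natCast u 2, ← Real.rpow_add hu0]
    norm_num
  have e3 : u ^ ((3 / 2 : ℝ) - 1) = u ^ (1 / 2 : ℝ) := by norm_num
  rw [e1, e2, e3]
  have hw : 0 < u ^ (1 / 2 : ℝ) := Real.rpow_pos_of_pos hu0 _
  set w := u ^ (1 / 2 : ℝ) with hwdef
  unfold numer
  simp only [eval_sub, eval_mul, eval_add, eval_pow, eval_one, eval_ofNat]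
  rw [← hu]
  field_simp

lemma criticalPoints_eq (p : ℝ[X]) : criticalPoints p = {x | (numer p).eval x = 0} := by
  ext x
  change deriv (curvature p) x = 0 ↔ (numer p).eval x = 0
  rw [(hasDerivAt_curvature p x).deriv, div_eq_zero_iff]
  have h : (1 + ((derivative p).eval x) ^ 2) ^ (5 / 2 : ℝ) ≠ 0 :=
    (Real.rpow_pos_of_pos (by positivity) _).ne'
  simp [h]

lemma extremePoints_subset (p : ℝ[X]) : extremePoints p ⊆ criticalPoints p :=
  fun _ hx => IsLocalExtr.deriv_eq_zero hx

/-- For `x^n` there are at most three curvature-critical points. -/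
lemma monomial_critical (n : ℕ) (hn : 5 ≤ n) : (criticalPoints (X ^ n)).encard ≤ 3 := by
  rw [criticalPoints_eq]
  obtain ⟨m, rfl⟩ : ∃ m, n = m + 3 := ⟨n - 3, by omega⟩
  have hN : ∀ x : ℝ, (numer (X ^ (m + 3))).eval x =
      (m + 3) * (m + 2) * x ^ m * ((m + 1) - (m + 3) ^ 2 * (2 * m + 5) * x ^ (2 * m + 4)) := by
    intro x
    unfold numer
    simp only [derivative_X_pow, derivative_mul, eval_sub, eval_mul, eval_add,
      eval_pow, eval_one, eval_ofNat, eval_X, zero_mul, zero_add,
      map_natCast, derivative_natCast, eval_natCast]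
    have h1 : m + 3 - 1 = m + 2 := by omega
    have h2 : m + 2 - 1 = m + 1 := by omega
    have h3 : m + 1 - 1 = m := by omega
    simp only [h1, h2, h3]
    push_cast
    ring
  have hm : (0 : ℝ) ≤ m := Nat.cast_nonneg m
  set c : ℝ := (m + 1) / ((m + 3) ^ 2 * (2 * m + 5)) with hc
  have hc0 : 0 < c := by positivity
  set r : ℝ := c ^ ((1 : ℝ) / (2 * m + 4 : ℕ)) with hr
  have hr0 : 0 < r := Real.rpow_pos_of_pos hc0 _
  have hrpow : r ^ (2 * m + 4) = c := by
    rw [hr, ← Real.rpow_natCast, ← Real.rpow_mul hc0.le]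
    have : (1 : ℝ) / (2 * m + 4 : ℕ) * (2 * m + 4 : ℕ) = 1 := by
      field_simp
    rw [this, Real.rpow_one]
  have hsub : {x : ℝ | (numer (X ^ (m + 3))).eval x = 0} ⊆ {0, r, -r} := by
    intro x hx
    have hx' : (numer (X ^ (m + 3))).eval x = 0 := hx
    rw [hN] at hx'
    have h4 : ((m : ℝ) + 3) * (m + 2) ≠ 0 := by positivity
    rcases mul_eq_zero.1 hx' with h | h
    · rcases mul_eq_zero.1 h with h | h
      · exact absurd h h4
      · left
        exact pow_eq_zero_iff (by omega) |>.1 h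
    · have h5 : x ^ (2 * m + 4) = c := by
        rw [hc, eq_div_iff (by positivity)]
        linarith
      have h6 : |x| ^ (2 * m + 4) = r ^ (2 * m + 4) := by
        rw [hrpow, ← h5, Even.pow_abs]
        exact ⟨m + 2, by ring⟩
      have h7 : |x| = r := (pow_left_inj₀ (abs_nonneg x) hr0.le (by omega)).1 h6
      rcases abs_eq hr0.le |>.1 h7 with h8 | h8
      · right; left; exact h8
      · right; right; exact h8
  refine (Set.encard_le_encard hsub).trans ?_
  refine (Set.encard_insert_le _ _).trans ?_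
  have h2 : ({r, -r} : Set ℝ).encard ≤ 2 := by
    refine (Set.encard_insert_le _ _).trans ?_
    rw [Set.encard_singleton]
    norm_num
  calc ({r, -r} : Set ℝ).encard + 1 ≤ 2 + 1 := by gcongr
    _ = 3 := by norm_num

/-! ### The stable example `x^5 + x^3` -/

lemma numer_eval (x : ℝ) : (numer (X ^ 5 + X ^ 3)).eval x =
    6 + 60 * x ^ 2 - 30 * (x ^ 2) ^ 2 *
      (150 * (x ^ 2) ^ 3 + 175 * (x ^ 2) ^ 2 + 66 * x ^ 2 + 9) := by
  unfold numer
  simp only [derivative_X_pow, derivative_mul, derivative_add, eval_sub, eval_mul, eval_add,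
    eval_pow, eval_one, eval_ofNat, eval_X, zero_mul, zero_add, map_natCast, derivative_natCast,
    eval_natCast]
  push_cast
  ring

lemma numer_poly : numer (X ^ 5 + X ^ 3) =
    6 + 60 * X ^ 2 - 30 * (X ^ 2) ^ 2 *
      (150 * (X ^ 2) ^ 3 + 175 * (X ^ 2) ^ 2 + 66 * X ^ 2 + 9) := by
  apply Polynomial.funext
  intro x
  rw [numer_eval]
  simp

lemma numer_deriv (x : ℝ) : (derivative (numer (X ^ 5 + X ^ 3))).eval x =
    2 * x * (60 - 60 * x ^ 2 * (150 * (x ^ 2) ^ 3 + 175 * (x ^ 2) ^ 2 + 66 * x ^ 2 + 9) -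
      30 * (x ^ 2) ^ 2 * (450 * (x ^ 2) ^ 2 + 350 * x ^ 2 + 66)) := by
  rw [numer_poly]
  simp only [derivative_mul, derivative_add, derivative_sub, derivative_pow,
    eval_sub, eval_mul, eval_add,
    eval_pow, eval_ofNat, eval_X, zero_mul, zero_add, map_natCast,
    eval_natCast, derivative_ofNat, derivative_X, mul_one, eval_zero]
  push_cast
  ring

lemma exists_root : ∃ s : ℝ, 0 < s ∧ 6 + 60 * s - 30 * s ^ 2 *
    (150 * s ^ 3 + 175 * s ^ 2 + 66 * s + 9) = 0 := by
  have hc : Continuous fun s : ℝ => 6 + 60 * s - 30 * s ^ 2 *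
    (150 * s ^ 3 + 175 * s ^ 2 + 66 * s + 9) := by fun_prop
  have h := intermediate_value_Icc' (a := (0 : ℝ)) (b := 1) zero_le_one hc.continuousOn
  obtain ⟨s, hs, hs0⟩ := h (show (0 : ℝ) ∈ Set.Icc _ _ by constructor <;> norm_num)
  refine ⟨s, ?_, hs0⟩
  rcases hs.1.eq_or_lt with h | h
  · subst h
    norm_num at hs0
  · exact h

lemma root_unique {s t : ℝ} (hs : 0 < s) (hst : s < t)
    (h1 : 6 + 60 * s - 30 * s ^ 2 * (150 * s ^ 3 + 175 * s ^ 2 + 66 * s + 9) = 0)
    (h2 : 6 + 60 * t - 30 * t ^ 2 * (150 * t ^ 3 + 175 * t ^ 2 + 66 * t + 9) = 0) : False := by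
  have ht : 0 < t := hs.trans hst
  have hq : 150 * s ^ 3 + 175 * s ^ 2 + 66 * s + 9 < 150 * t ^ 3 + 175 * t ^ 2 + 66 * t + 9 := by
    gcongr
  set a := 150 * s ^ 3 + 175 * s ^ 2 + 66 * s + 9 with ha
  set b := 150 * t ^ 3 + 175 * t ^ 2 + 66 * t + 9 with hb
  have ha0 : 0 < a := by positivity
  have h3 : s * a < t * b := by
    have := mul_lt_mul hst hq.le ha0 ht.le
    exact this
  have h4 : s * t * (s * a) < s * t * (t * b) := mul_lt_mul_of_pos_left h3 (by positivity)
  nlinarith

lemma critical_five : ∃ r : ℝ, 0 < r ∧ criticalPoints (X ^ 5 + X ^ 3) = {r, -r} := by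
  obtain ⟨s, hs, hroot⟩ := exists_root
  refine ⟨Real.sqrt s, Real.sqrt_pos.2 hs, ?_⟩
  rw [criticalPoints_eq]
  ext x
  rw [Set.mem_ofPred_eq, numer_eval, Set.mem_insert_iff, Set.mem_singleton_iff]
  constructor
  · intro h
    have hx : 0 < x ^ 2 := by
      rcases (sq_nonneg x).eq_or_lt with h0 | h0
      · rw [← h0] at h
        norm_num at h
      · exact h0
    have hxs : x ^ 2 = s := by
      rcases lt_trichotomy (x ^ 2) s with h5 | h5 | h5
      · exact (root_unique hx h5 h hroot).elim
      · exact h5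
      · exact (root_unique hs h5 hroot h).elim
    have h6 : |x| = Real.sqrt s := by rw [← hxs, Real.sqrt_sq_eq_abs]
    exact (abs_eq (Real.sqrt_nonneg s)).1 h6
  · rintro (rfl | rfl)
    · rw [Real.sq_sqrt hs.le]
      exact hroot
    · rw [neg_sq, Real.sq_sqrt hs.le]
      exact hroot

lemma simple_five (x : ℝ) (hx : (numer (X ^ 5 + X ^ 3)).eval x = 0) :
    (derivative (numer (X ^ 5 + X ^ 3))).eval x ≠ 0 := by
  rw [numer_eval] at hx
  rw [numer_deriv]
  have hx0 : x ≠ 0 := by
    rintro rfl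
    norm_num at hx
  have hs : 0 < x ^ 2 := by positivity
  set s := x ^ 2 with hsdef
  set q := 150 * s ^ 3 + 175 * s ^ 2 + 66 * s + 9 with hq
  have h1 : s * (60 - 60 * s * q - 30 * s ^ 2 * (450 * s ^ 2 + 350 * s + 66)) < 0 := by
    have h2 : 60 * s ^ 2 * q = 2 * (6 + 60 * s) := by linarith
    have h3 : 0 < s ^ 3 * (450 * s ^ 2 + 350 * s + 66) := by positivity
    nlinarith
  have h4 : 60 - 60 * s * q - 30 * s ^ 2 * (450 * s ^ 2 + 350 * s + 66) ≠ 0 := by
    intro h
    rw [h, mul_zero] at h1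
    exact lt_irrefl _ h1
  exact mul_ne_zero (mul_ne_zero two_ne_zero hx0) h4

/-- (1) Not every real polynomial `p` of degree `n > 2` has at least `n - 1` points of extreme
curvature. (2) The same for curvature-critical points. (3) For every `n ≥ 5` some polynomial of
degree `n` has at most three curvature-critical points, and so at most three points of extreme
curvature. (4) For `p = x^5 + x^3` there are exactly two curvature-critical points, so at most two
points of extreme curvature, and they are simple zeros of the numerator of `κ'`. -/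
theorem result :
    (¬ ∀ p : ℝ[X], 2 < p.natDegree → ((p.natDegree - 1 : ℕ) : ℕ∞) ≤ (extremePoints p).encard) ∧
    (¬ ∀ p : ℝ[X], 2 < p.natDegree → ((p.natDegree - 1 : ℕ) : ℕ∞) ≤ (criticalPoints p).encard) ∧
    (∀ n : ℕ, 5 ≤ n → ∃ p : ℝ[X], p.natDegree = n ∧ (criticalPoints p).encard ≤ 3 ∧
      (extremePoints p).encard ≤ 3) ∧
    ((criticalPoints (X ^ 5 + X ^ 3)).encard = 2 ∧ (extremePoints (X ^ 5 + X ^ 3)).encard ≤ 2 ∧
      ∀ x ∈ criticalPoints (X ^ 5 + X ^ 3), (numer (X ^ 5 + X ^ 3)).eval x = 0 ∧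
        (derivative (numer (X ^ 5 + X ^ 3))).eval x ≠ 0) := by
  have h3 : ∀ n : ℕ, 5 ≤ n → ∃ p : ℝ[X], p.natDegree = n ∧ (criticalPoints p).encard ≤ 3 ∧
      (extremePoints p).encard ≤ 3 := by
    intro n hn
    exact ⟨X ^ n, natDegree_X_pow n, monomial_critical n hn,
      (Set.encard_le_encard (extremePoints_subset _)).trans (monomial_critical n hn)⟩
  obtain ⟨p, hp1, hp2, hp3⟩ := h3 5 le_rfl
  have h4 : (criticalPoints (X ^ 5 + X ^ 3)).encard = 2 := by
    obtain ⟨r, hr, h⟩ := critical_five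
    rw [h, Set.encard_pair]
    intro h'
    linarith
  refine ⟨?_, ?_, h3, h4, ?_, ?_⟩
  · intro h
    have := (h p (by omega)).trans hp3
    rw [hp1] at this
    exact absurd this (by norm_num)
  · intro h
    have := (h p (by omega)).trans hp2
    rw [hp1] at this
    exact absurd this (by norm_num)
  · rw [← h4]
    exact Set.encard_le_encard (extremePoints_subset _)
  · intro x hx
    rw [criticalPoints_eq] at hx
    exact ⟨hx, simple_five x hx⟩

end Pool.Agent.Results.MP_4bcb19_an.FewCurvatureExtrema
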